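import Pool.Agent.H535.AU.Main
import Pool.Agent.H535.AK.Gen2

set_option autoImplicit false

/-!
The general theorem, uniformly in the sieve problem.
-/

open Finset

namespace Pool.Agent.H535.AU

open Pool.Agent.Helper112 Pool.Agent.W110.HV
open Pool.Agent.H535.AW (SC min_center large2)
open Pool.Agent.H535.AK (PP PP_one_le iv iv_le Rem IC shift_sum shift_mod SC_eq class_count one_mod BadK mem_BadK
  num_g sum_bad rho_low Alw mem_Alw Alw_card)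

/-- **The general theorem.** -/
theorem gen_varU (m : ℕ) (A : ℝ) (hA : 0 ≤ A) (b : ℝ) (hb : 0 ≤ b) (r : ℝ) (hr : 0 ≤ r) (ε : ℝ) (hε : 0 < ε)
    (hε1 : ε ≤ 1) :
    ∃ C : ℝ, 8 ≤ C ∧ ∃ X0 : ℕ, ∀ (w : ℕ → ℕ) (ℓ : ℝ), DimU w (m + 1) A ℓ → ∀ X : ℕ, X0 ≤ X →
    ℓ ≤ b * Real.log (Real.log X) → ∀ K : ℕ, Real.sqrt X * Real.log X ^ C ≤ K → K ≤ X → ∀ (Y : ℤ) (B : ℕ → Finset ℤ) (u : ℤ → ℂ),
    Rem w B (Nat.sqrt X) → (∀ p : ℕ, p.Prime → (B p).card ≤ w p) →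
    (∀ t ∈ Ioc Y (Y + X), u t ≠ 0 → ∀ p : ℕ, p.Prime → p ^ 2 ≤ X → ∀ b ∈ B p, ¬ (p : ℤ) ∣ t - b) →
    (∀ t ∈ Ioc Y (Y + X), u t ≠ 0 → ((BadK B K t).card : ℝ) ≤ r * (K / Real.sqrt X)) →
    ∀ c : ℕ → ℂ,
    (1 - ε) * (1 - (1 - Real.log ((K : ℝ) ^ 2 / X) / Real.log X) ^ (m + 1)) * K *
        ∑ t ∈ Ioc Y (Y + X), ‖u t‖ ^ 2 ≤
      ∑ k ∈ Ioc K (2 * K), ∑ a ∈ Alw B k, ‖IC u Y X k a - c k‖ ^ 2 := by
  classical
  obtain ⟨C1, hC1, X1, hU⟩ := main_sumU m A hA b hb (ε / 2) (by positivity) (by linarith)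
  obtain ⟨Ct, D, hCt, hPPU⟩ := PP_leU A hA
  obtain ⟨P, hPdef⟩ : ∃ P : ℝ, P = Ct * 2 ^ D := ⟨_, rfl⟩
  have hP1 : 1 ≤ P := by
    rw [hPdef]
    exact one_le_mul_of_one_le_of_one_le hCt (one_le_pow₀ (by norm_num))
  obtain ⟨X2, hX2⟩ := large2 (100 + 16 * (r + 1) * P / ε)
  refine ⟨C1 + D + 3, by
    have : (0 : ℝ) ≤ D := Nat.cast_nonneg _
    linarith, max X1 (max X2 1), fun w ℓ hD X hX hℓ K hK hKX Y B u hRem hBw hu hbad c => ?_⟩
  have hwlt := hD.lt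
  have hPP := hPPU w (m + 1) ℓ hD
  have h := hU w ℓ hD
  have hXX1 : X1 ≤ X := (le_max_left _ _).trans hX
  have hXX2 : X2 ≤ X := (le_max_left _ _).trans ((le_max_right _ _).trans hX)
  have hX1 : 1 ≤ X := (le_max_right _ _).trans ((le_max_right _ _).trans hX)
  have hX0 : (0 : ℝ) < X := by exact_mod_cast hX1
  obtain ⟨hL', hs'⟩ := hX2 X hXX2
  obtain ⟨L, hLdef⟩ : ∃ L : ℝ, L = Real.log X := ⟨_, rfl⟩
  obtain ⟨s, hsdef⟩ : ∃ s : ℝ, s = Real.sqrt X := ⟨_, rfl⟩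
  have hG0 : 0 < 16 * (r + 1) * P / ε := by positivity
  have hK' := hK
  rw [← hLdef] at hL' hs' hK hℓ ⊢
  rw [← hsdef] at hs' hK hbad
  have hL100 : 100 ≤ L := by linarith
  have hL0 : 0 < L := by linarith
  have hL1 : 1 ≤ L := by linarith
  have hLG : 16 * (r + 1) * P / ε ≤ L := by linarith
  have hsG : 16 * (r + 1) * P / ε * L ≤ s := by nlinarith only [hs', hL0]
  have hs0 : 0 < s := by
    rw [hsdef]
    exact Real.sqrt_pos.2 hX0
  have hs2 : s ^ 2 = X := by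
    rw [hsdef]
    exact Real.sq_sqrt hX0.le
  have hKC1 : s * L ^ C1 ≤ K := by
    refine le_trans (mul_le_mul_of_nonneg_left ?_ hs0.le) hK
    refine Real.rpow_le_rpow_of_exponent_le hL1 ?_
    have : (0 : ℝ) ≤ D := Nat.cast_nonneg _
    linarith
  have hKD : s * L ^ (D + 3) ≤ K := by
    refine le_trans (mul_le_mul_of_nonneg_left ?_ hs0.le) hK
    rw [← Real.rpow_natCast]
    refine Real.rpow_le_rpow_of_exponent_le hL1 ?_
    push_cast
    linarith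
  have hsK : s ≤ K := le_trans (le_mul_of_one_le_right hs0.le (one_le_pow₀ hL1)) hKD
  have hK0 : (0 : ℝ) < K := lt_of_lt_of_le hs0 hsK
  have hK1 : 1 ≤ K := by exact_mod_cast hK0
  have hs3 : 3 ≤ s := by
    have h1 : 16 * (r + 1) * P / ε * L ≥ 16 * L := by
      have h2 : 16 ≤ 16 * (r + 1) * P / ε := by
        rw [le_div_iff₀ hε]
        have : 1 * 1 ≤ (r + 1) * P := mul_le_mul (by linarith) hP1 (by norm_num) (by linarith)
        nlinarith only [this, hε1, hε]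
      exact mul_le_mul_of_nonneg_right h2 hL0.le
    linarith
  have hK3 : 3 ≤ 2 * K := by
    have h2 : (3 : ℝ) ≤ K := by linarith
    have h3 : 3 ≤ K := by exact_mod_cast h2
    omega
  have hF : 1 / L ≤ 1 - (1 - Real.log ((K : ℝ) ^ 2 / X) / L) ^ (m + 1) :=
    rho_low m X K C1 L hC1 hLdef hL100 hX1 (by rw [← hsdef]; exact hKC1) hKX
  obtain ⟨F, hFdef⟩ : ∃ F : ℝ, F = 1 - (1 - Real.log ((K : ℝ) ^ 2 / X) / L) ^ (m + 1) := ⟨_, rfl⟩
  rw [← hFdef] at hF ⊢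
  -- the shift
  obtain ⟨Z, hZ⟩ : ∃ Z : ℕ, (Z : ℤ) = Y + ((2 * K).factorial : ℤ) * |Y| := by
    refine ⟨(Y + ((2 * K).factorial : ℤ) * |Y|).toNat, Int.toNat_of_nonneg ?_⟩
    have h1 : (1 : ℤ) ≤ ((2 * K).factorial : ℤ) := by exact_mod_cast Nat.factorial_pos _
    have h2 : 0 ≤ |Y| := abs_nonneg Y
    have h3 := neg_abs_le Y
    nlinarith
  have hZk : ∀ k ∈ Ioc K (2 * K), (k : ℤ) ∣ (Z : ℤ) - Y := by
    intro k hk
    rw [mem_Ioc] at hk
    rw [hZ, add_sub_cancel_left]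
    exact Dvd.dvd.mul_right (by exact_mod_cast Nat.dvd_factorial (by omega) hk.2) _
  obtain ⟨v, hvdef⟩ : ∃ v : ℕ → ℂ, v = fun m : ℕ => u (Y + (m : ℤ)) := ⟨_, rfl⟩
  have hmemY : ∀ m ∈ Icc 1 X, Y + (m : ℤ) ∈ Ioc Y (Y + X) := by
    intro m hm
    rw [mem_Icc] at hm
    rw [mem_Ioc]
    omega
  obtain ⟨Bs, hBs⟩ : ∃ Bs : ℕ → Finset ℤ, Bs = fun p => (B p).image (fun b => b - Y) := ⟨_, rfl⟩
  have hRemS : Rem w Bs (Nat.sqrt X) := by
    refine ⟨fun p hp hpX => ?_, fun p hp hpX b hb c hc hd => ?_⟩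
    · rw [hBs]
      simp only
      rw [card_image_of_injective _ (fun a b h => by simpa using h)]
      exact hRem.card p hp hpX
    · rw [hBs] at hb hc
      simp only [mem_image] at hb hc
      obtain ⟨b', hb', rfl⟩ := hb
      obtain ⟨c', hc', rfl⟩ := hc
      rw [hRem.inj p hp hpX b' hb' c' hc' (by
        have e : b' - Y - (c' - Y) = b' - c' := by ring
        rwa [e] at hd)]
  have h1 := h X hXX1 (by rw [← hLdef]; exact hℓ) K (by rw [← hLdef, ← hsdef]; exact hKC1) hKX Z Bs v hRemS (by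
    intro n hn hne p hp hpX b hb hd
    rw [hBs] at hb
    simp only [mem_image] at hb
    obtain ⟨b', hb', rfl⟩ := hb
    rw [hvdef] at hne
    refine hu (Y + (n : ℤ)) (hmemY n hn) hne p hp (Nat.le_sqrt'.1 hpX) b' hb' ?_
    have e : (n : ℤ) - (b' - Y) = Y + n - b' := by ring
    rwa [e] at hd)
  rw [← hLdef, ← hFdef] at h1
  obtain ⟨V, hV⟩ : ∃ V : ℝ, V = ∑ m ∈ Icc 1 X, ‖v m‖ ^ 2 := ⟨_, rfl⟩
  have hV0 : 0 ≤ V := by
    rw [hV]
    exact sum_nonneg fun _ _ => by positivity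
  have hVu : ∑ t ∈ Ioc Y (Y + X), ‖u t‖ ^ 2 = V := by
    rw [hV, hvdef]
    exact (shift_sum X Y (fun t => ‖u t‖ ^ 2)).symm
  obtain ⟨H, hHdef⟩ : ∃ H : ℝ, H = s * Real.sqrt V := ⟨_, rfl⟩
  have hH2 : H * H = s ^ 2 * V := by
    rw [hHdef]
    have := Real.mul_self_sqrt hV0
    calc s * Real.sqrt V * (s * Real.sqrt V) = s ^ 2 * (Real.sqrt V * Real.sqrt V) := by ring
      _ = s ^ 2 * V := by rw [this]
  have hH0 : 0 ≤ H := by
    rw [hHdef]
    positivity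
  have hH : ∑ m ∈ Icc 1 X, ‖v m‖ ≤ H := by
    have h2 : (∑ m ∈ Icc 1 X, ‖v m‖) ^ 2 ≤ H ^ 2 := by
      have h3 := sq_sum_le_card_mul_sum_sq (s := Icc 1 X) (f := fun m => ‖v m‖)
      rw [Nat.card_Icc, Nat.add_sub_cancel, ← hV] at h3
      rw [pow_two H, hH2, hs2]
      exact h3
    exact le_of_sq_le_sq h2 hH0
  have hPPb : PP w (2 * K) ≤ P * L ^ D := by
    refine (hPP (2 * K) hK3).trans ?_
    have hLg : Real.log ((2 * K : ℕ) : ℝ) ≤ 2 * L := by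
      have h1 : ((2 * K : ℕ) : ℝ) ≤ 2 * X := by
        push_cast
        have : (K : ℝ) ≤ X := by exact_mod_cast hKX
        linarith
      have h2 : (0 : ℝ) < ((2 * K : ℕ) : ℝ) := by
        push_cast
        linarith
      have h3 := Real.log_le_log h2 h1
      rw [Real.log_mul (by norm_num) hX0.ne', ← hLdef] at h3
      have := Real.log_two_lt_d9
      linarith
    have hLg0 : 0 ≤ Real.log ((2 * K : ℕ) : ℝ) := by
      apply Real.log_nonneg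
      exact_mod_cast (by omega : 1 ≤ 2 * K)
    have h1 : Real.log ((2 * K : ℕ) : ℝ) ^ D ≤ (2 * L) ^ D := pow_le_pow_left₀ hLg0 hLg D
    calc Ct * Real.log ((2 * K : ℕ) : ℝ) ^ D ≤ Ct * (2 * L) ^ D := mul_le_mul_of_nonneg_left h1 (by linarith)
      _ = P * L ^ D := by rw [mul_pow, hPdef]; ring
  have hPP0 : 0 ≤ PP w (2 * K) := zero_le_one.trans (PP_one_le hwlt _)
  have hbadv : ∀ n ∈ Icc 1 X, v n ≠ 0 → ((BadK B K (Y + (n : ℤ))).card : ℝ) ≤ r * (K / s) := by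
    intro n hn hne
    rw [hvdef] at hne
    exact hbad (Y + (n : ℤ)) (hmemY n hn) hne
  obtain ⟨U, hUdef⟩ : ∃ U : ℕ → ℝ, U = fun k => ∑ m ∈ (Icc 1 X).filter
    (fun m : ℕ => k ∈ BadK B K (Y + (m : ℤ))), ‖v m‖ ^ 2 := ⟨_, rfl⟩
  obtain ⟨W, hW⟩ : ∃ W : ℕ → ℝ, W = fun k => ∑ m ∈ (Icc 1 X).filter
    (fun m : ℕ => k ∈ BadK B K (Y + (m : ℤ))), ‖v m‖ := ⟨_, rfl⟩
  have hUs : ∑ k ∈ Ioc K (2 * K), U k ≤ r * (K / s) * V := by
    rw [hUdef, hV]
    refine sum_bad B X K Y (fun m => ‖v m‖ ^ 2) (fun m => by positivity) _ ?_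
    intro n hn hne
    refine hbadv n hn fun h0 => hne ?_
    show ‖v n‖ ^ 2 = 0
    rw [h0, norm_zero, zero_pow (by norm_num)]
  have hWs : ∑ k ∈ Ioc K (2 * K), W k ≤ r * (K / s) * H := by
    refine le_trans ?_ (mul_le_mul_of_nonneg_left hH (by positivity))
    rw [hW]
    refine sum_bad B X K Y (fun m => ‖v m‖) (fun m => norm_nonneg _) _ ?_
    intro n hn hne
    refine hbadv n hn fun h0 => hne ?_
    show ‖v n‖ = 0
    rw [h0, norm_zero]
  have hW0 : ∀ k, 0 ≤ W k := by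
    intro k
    rw [hW]
    exact sum_nonneg fun _ _ => norm_nonneg _
  have hone : ∀ k ∈ Ioc K (2 * K),
      (∑ a ∈ range k, ‖SC X Z k v a‖ ^ 2 - ‖∑ n ∈ Icc 1 X, v n‖ ^ 2 * iv w k) -
        (X / K + 2) * U k - (3 * H * (PP w (2 * K) / K)) * W k ≤
      ∑ a ∈ Alw B k, ‖IC u Y X k a - c k‖ ^ 2 := by
    intro k hk
    have hk' := hk
    rw [mem_Ioc] at hk
    have hkpos : 0 < k := by omega
    have hk0 : (0 : ℝ) < k := by exact_mod_cast hkpos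
    have hKk : (K : ℝ) ≤ k := by exact_mod_cast hk.1.le
    have hcard := Alw_card hwlt B hBw k (by omega)
    have hsub : Alw B k ⊆ range k := by
      intro a ha
      exact mem_range.2 ((mem_Alw B k a).1 ha).1
    have hne : (Alw B k).Nonempty := by
      rw [nonempty_iff_ne_empty]
      intro h0
      rw [h0, card_empty, Nat.cast_zero, zero_mul] at hcard
      linarith
    have hc0 : (0 : ℝ) < (Alw B k).card := by exact_mod_cast hne.card_pos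
    have hI : 1 / ((Alw B k).card : ℝ) ≤ iv w k := by
      unfold iv
      rw [one_div_mul_eq_div, div_le_div_iff₀ hc0 hk0]
      linarith
    have hiv : iv w k ≤ PP w (2 * K) / K :=
      (iv_le hwlt k (2 * K) hk.2).trans (div_le_div_of_nonneg_left hPP0 hK0 hKk)
    have hμ : (X : ℝ) / k + 2 ≤ X / K + 2 := by
      have := div_le_div_of_nonneg_left (Nat.cast_nonneg X : (0 : ℝ) ≤ X) hK0 hKk
      linarith
    have h3 := one_mod X Z k hkpos v (Alw B k) hsub hne (fun m : ℕ => k ∈ BadK B K (Y + (m : ℤ))) (by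
      intro a ha hna n hn hvn hmod
      rw [mem_range] at ha
      rw [mem_Alw] at hna
      push Not at hna
      obtain ⟨p, hp, hpk, b, hb, hd⟩ := hna ha
      rw [mem_BadK]
      refine ⟨hk', p, hp, hpk, b, hb, ?_⟩
      have h4 := (shift_mod Y Z k n a ha (hZk k hk')).1 hmod
      have h5 : (p : ℤ) ∣ (Y + (n : ℤ)) - a := (Int.natCast_dvd_natCast.2 hpk).trans h4
      have h6 := dvd_add h5 hd
      have e : Y + (n : ℤ) - a + (a - b) = Y + n - b := by ring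
      rwa [e] at h6) (iv w k) hI (X / K + 2) hμ (c k) H hH
    have h4 : (3 * H * iv w k) * W k ≤ (3 * H * (PP w (2 * K) / K)) * W k :=
      mul_le_mul_of_nonneg_right (mul_le_mul_of_nonneg_left hiv (by positivity)) (hW0 k)
    have h6 : ∑ a ∈ Alw B k, ‖IC u Y X k a - c k‖ ^ 2 = ∑ a ∈ Alw B k, ‖SC X Z k v a - c k‖ ^ 2 := by
      refine sum_congr rfl fun a ha => ?_
      rw [hvdef, SC_eq u Y X Z k a ((mem_Alw B k a).1 ha).1 (hZk k hk')]
    rw [h6]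
    refine le_trans ?_ h3
    have e1 : U k = ∑ m ∈ (Icc 1 X).filter (fun m : ℕ => k ∈ BadK B K (Y + (m : ℤ))), ‖v m‖ ^ 2 := by rw [hUdef]
    have e2 : W k = ∑ m ∈ (Icc 1 X).filter (fun m : ℕ => k ∈ BadK B K (Y + (m : ℤ))), ‖v m‖ := by rw [hW]
    rw [← e1, ← e2]
    linarith only [h4]
  have hsum := sum_le_sum hone
  rw [sum_sub_distrib, sum_sub_distrib, ← mul_sum, ← mul_sum] at hsum
  rw [← hV] at h1
  rw [hVu]
  have hUs2 : ((X : ℝ) / K + 2) * ∑ k ∈ Ioc K (2 * K), U k ≤ (s ^ 2 / K + 2) * (r * (K / s) * V) := by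
    rw [hs2]
    exact mul_le_mul_of_nonneg_left hUs (by positivity)
  have hWs2 : (3 * H * (PP w (2 * K) / K)) * ∑ k ∈ Ioc K (2 * K), W k ≤
      3 * PP w (2 * K) / K * (r * (K / s)) * (s ^ 2 * V) := by
    have h2 : (3 * H * (PP w (2 * K) / K)) * ∑ k ∈ Ioc K (2 * K), W k ≤
        (3 * H * (PP w (2 * K) / K)) * (r * (K / s) * H) :=
      mul_le_mul_of_nonneg_left hWs (by positivity)
    refine h2.trans (le_of_eq ?_)
    rw [← hH2]
    ring
  have hnum := num_g ε r L s K (PP w (2 * K)) P F V D hε hr hP1 hLG hL1 hsG hKD hPP0 hPPb hF hV0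
  have hfin : (1 - ε) * F * K * V = (1 - ε / 2) * F * K * V - (ε / 2) * F * K * V := by ring
  rw [hfin]
  linarith only [hsum, h1, hUs2, hWs2, hnum]

end Pool.Agent.H535.AU
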