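import Pool.Agent.H535.AU.Bd
import Pool.Agent.H535.AK.Lam

set_option autoImplicit false

/-!
The growth of the sums of the sieve weights, uniformly in the sieve problem.
-/

open Finset

namespace Pool.Agent.H535.AU

open Pool.Agent.H535.AW (log_small)
open Pool.Agent.H535.AK (g hs Ls Is gs Ls_nonneg lam_core)

/-- the ratio `L(w)/L(T w)`, uniformly in `s` and in the sieve problem -/
theorem lamU (m : ℕ) (A : ℝ) (hA : 0 ≤ A) (b : ℝ) (hb : 0 ≤ b) (ε : ℝ) (hε : 0 < ε) (hε1 : ε ≤ 1) :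
    ∃ (Q0 : ℕ) (E : ℝ), 3 ≤ Q0 ∧ 0 < E ∧ ∀ (w : ℕ → ℕ) (ℓ : ℝ), DimU w (m + 1) A ℓ → ∀ Q : ℕ, Q0 ≤ Q →
    ℓ ≤ b * Real.log (Real.log Q) → ∀ τ : ℝ,
    E * Real.log (Real.log Q) ≤ τ → τ ≤ Real.log Q → ∀ s : ℕ, 1 ≤ s → s ≤ Q →
    ∀ z : ℝ, 0 < z → z * s * Real.exp τ ≤ Q →
    Ls w s z ≤ (1 - (1 - ε) * τ / Real.log Q) ^ (m + 1) * Ls w s (z * Real.exp τ) := by
  obtain ⟨C, hC, hLIU⟩ := LI_boundsU A hA (m + 1)
  obtain ⟨C1, hC1, hgsU⟩ := gs_leU A hA
  obtain ⟨κ, hκdef⟩ : ∃ κ : ℝ, κ = ((m + 1 : ℕ) : ℝ) := ⟨_, rfl⟩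
  have hκ0 : 0 ≤ κ := by
    rw [hκdef]
    exact Nat.cast_nonneg _
  obtain ⟨M, hMdef⟩ : ∃ M : ℝ, M = κ + 1 + 3 * b := ⟨_, rfl⟩
  have hM : 1 ≤ M := by
    rw [hMdef]
    linarith
  obtain ⟨x0, hx0⟩ := log_small (ε / (4 * M)) (by positivity)
  obtain ⟨c2, hc2⟩ : ∃ c2 : ℝ, c2 = C + 2 * C1 + κ := ⟨_, rfl⟩
  refine ⟨max 3 ⌈Real.exp (max x0 (Real.exp c2))⌉₊, 12 / ε ^ 2 * M, le_max_left _ _, by positivity, ?_⟩
  intro w ℓ h Q hQ hℓ τ hτ1 hτ2 s hs1 hsQ z hw' hwQ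
  have hw := h.lt
  have hℓ0 := h.nonneg'
  have hLI := hLIU w ℓ h
  have hgs := hgsU w (m + 1) ℓ h
  have hQ3 : (3 : ℝ) ≤ Q := by exact_mod_cast (le_max_left _ _).trans hQ
  have hQe : Real.exp (max x0 (Real.exp c2)) ≤ Q :=
    (Nat.le_ceil _).trans (by exact_mod_cast (le_max_right _ _).trans hQ)
  have hlQ : max x0 (Real.exp c2) ≤ Real.log Q := by
    rw [Real.le_log_iff_exp_le (by linarith)]
    exact hQe
  have hlQ1 : x0 ≤ Real.log Q := (le_max_left _ _).trans hlQ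
  have hlQ2 : Real.exp c2 ≤ Real.log Q := (le_max_right _ _).trans hlQ
  have hlpos : 0 < Real.log Q := lt_of_lt_of_le (Real.exp_pos _) hlQ2
  have hll : c2 ≤ Real.log (Real.log Q) := by
    rw [Real.le_log_iff_exp_le hlpos]
    exact hlQ2
  obtain ⟨ll, hlldef⟩ : ∃ ll : ℝ, ll = Real.log (Real.log Q) := ⟨_, rfl⟩
  rw [← hlldef] at hll hℓ hτ1
  have h1 : ll ≤ ε / (4 * M) * Real.log Q := by
    rw [hlldef]
    exact hx0 _ hlQ1
  have hc20 : 0 ≤ c2 := by rw [hc2]; positivity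
  have hl1 : (1 : ℝ) ≤ Real.log Q := by
    have : Real.exp 0 ≤ Real.exp c2 := Real.exp_le_exp.2 hc20
    rw [Real.exp_zero] at this
    linarith
  -- the bound for `gs`
  have hg : (2 * ℓ + C) + gs w s ≤ M * ll := by
    have h2 := hgs s ⌈Real.log Q⌉₊ hs1 (Nat.one_le_ceil_iff.2 hlpos)
    have h3 : Real.log Q ≤ ⌈Real.log Q⌉₊ := Nat.le_ceil _
    have h4 : (⌈Real.log Q⌉₊ : ℝ) ≤ 2 * Real.log Q := by
      have := Nat.ceil_lt_add_one hlpos.le
      linarith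
    have h5 : Real.log (⌈Real.log Q⌉₊ : ℝ) ≤ 1 + ll := by
      have h6 : Real.log (⌈Real.log Q⌉₊ : ℝ) ≤ Real.log (2 * Real.log Q) :=
        Real.log_le_log (by linarith) h4
      rw [Real.log_mul (by norm_num) hlpos.ne', ← hlldef] at h6
      have := Real.log_two_lt_d9
      linarith
    have h6 : Real.log s / (⌈Real.log Q⌉₊ : ℝ) ≤ 1 := by
      rw [div_le_one (by linarith)]
      refine le_trans (Real.log_le_log (by exact_mod_cast hs1) (by exact_mod_cast hsQ)) h3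
    have h7 : C1 * (Real.log s / (⌈Real.log Q⌉₊ : ℝ)) ≤ C1 * 1 := mul_le_mul_of_nonneg_left h6 hC1
    rw [← hκdef] at h2
    have h8 : κ * Real.log (⌈Real.log Q⌉₊ : ℝ) ≤ κ * (1 + ll) := mul_le_mul_of_nonneg_left h5 hκ0
    rw [hMdef]
    linarith only [h2, h7, h8, hll, hc2, hℓ, (by ring : κ * (1 + ll) = κ + κ * ll),
      (by ring : (κ + 1 + 3 * b) * ll = κ * ll + ll + 3 * (b * ll))]
  have hcoef : 0 ≤ 1 - (1 - ε) * τ / Real.log Q := by
    have h2 : (1 - ε) * τ / Real.log Q ≤ 1 - ε := by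
      rw [div_le_iff₀ hlpos]
      exact mul_le_mul_of_nonneg_left hτ2 (by linarith)
    linarith
  rcases lt_or_ge z 1 with hw1 | hw1
  · have h2 : Ls w s z = 0 := by
      unfold Ls
      rw [Nat.floor_eq_zero.2 hw1]
      simp
    rw [h2]
    exact mul_nonneg (pow_nonneg hcoef _) (Ls_nonneg hw s _)
  · have ha : 0 ≤ Real.log z := Real.log_nonneg hw1
    have h2 : Real.log z + τ ≤ Real.log Q := by
      have h3 : z * Real.exp τ ≤ Q := by
        refine le_trans ?_ hwQ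
        have h4 : (1 : ℝ) ≤ s := by exact_mod_cast hs1
        have h5 : 0 < z * Real.exp τ := by positivity
        calc z * Real.exp τ = z * Real.exp τ * 1 := by ring
          _ ≤ z * Real.exp τ * s := mul_le_mul_of_nonneg_left h4 h5.le
          _ = z * s * Real.exp τ := by ring
      have h4 := Real.log_le_log (by positivity) h3
      rw [Real.log_mul hw'.ne' (Real.exp_pos τ).ne', Real.log_exp] at h4
      exact h4
    have h5 : 4 * (M * ll) ≤ ε * Real.log Q := by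
      have h6 := mul_le_mul_of_nonneg_left h1 (by positivity : 0 ≤ 4 * M)
      have e : 4 * M * (ε / (4 * M) * Real.log Q) = ε * Real.log Q := by field_simp
      linarith
    have h3 := lam_core hw m (2 * ℓ + C) (by linarith) hLI ε hε hε1 s hs1 (M * ll) (Real.log Q) τ hg h5
      (by
        refine le_trans (le_of_eq ?_) hτ1
        ring) hτ2 (Real.log z) ha h2
    rw [Real.exp_add, Real.exp_log hw'] at h3
    exact h3

end Pool.Agent.H535.AU
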