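import Pool.Agent.H535.AU.Poly

set_option autoImplicit false

/-!
Systems of linear forms: the dimension is the number of the forms.
-/

open Finset

namespace Pool.Agent.H535.AU

open Pool.Agent.H535.AK (rtF wF)

/-- the product of the linear forms -/
def Fn {k : ℕ} (a b : Fin k → ℤ) (t : ℤ) : ℤ := ∏ i, (a i * t + b i)

/-- the discriminant of the system -/
def disc {k : ℕ} (a b : Fin k → ℤ) : ℤ :=
  (∏ i, a i) * ∏ q ∈ (univ : Finset (Fin k × Fin k)).filter (fun q => q.1 < q.2), (a q.1 * b q.2 - a q.2 * b q.1)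

/-- admissible systems -/
def AdmS {k : ℕ} (a b : Fin k → ℤ) : Prop := disc a b ≠ 0 ∧ ∀ p : ℕ, p.Prime → ∃ t : ℤ, ¬ (p : ℤ) ∣ Fn a b t

theorem Fn_sub {k : ℕ} (a b : Fin k → ℤ) (x y : ℤ) : x - y ∣ Fn a b x - Fn a b y := by
  have h : ∀ t : ℤ, Fn a b t = (∏ i, (Polynomial.C (a i) * Polynomial.X + Polynomial.C (b i))).eval t := by
    intro t
    unfold Fn
    rw [Polynomial.eval_prod]
    refine prod_congr rfl fun i _ => ?_
    simp
  rw [h, h]
  exact Polynomial.sub_dvd_eval_sub x y _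

theorem eq_of_mod {p : ℕ} {x y : ℤ} (hx : x ∈ Ico (0 : ℤ) p) (hy : y ∈ Ico (0 : ℤ) p) (h : (p : ℤ) ∣ x - y) :
    x = y := by
  rw [mem_Ico] at hx hy
  have h1 : y % p = x % p := Int.modEq_iff_dvd.2 h
  rw [Int.emod_eq_of_lt hx.1 hx.2, Int.emod_eq_of_lt hy.1 hy.2] at h1
  exact h1.symm

theorem lin_le {k : ℕ} (a b : Fin k → ℤ) (h : AdmS a b) (p : ℕ) (hp : p.Prime) : wF (Fn a b) p ≤ k := by
  classical
  have hpp : Prime (p : ℤ) := Nat.prime_iff_prime_int.1 hp
  have h1 : rtF (Fn a b) p ⊆ (univ : Finset (Fin k)).biUnion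
      (fun i => (Ico (0 : ℤ) p).filter (fun x => (p : ℤ) ∣ a i * x + b i)) := by
    intro x hx
    unfold rtF at hx
    rw [mem_filter] at hx
    obtain ⟨i, hi, hd⟩ := (Prime.dvd_finsetProd_iff hpp _).1 hx.2
    rw [mem_biUnion]
    exact ⟨i, hi, mem_filter.2 ⟨hx.1, hd⟩⟩
  have h2 : ∀ i ∈ (univ : Finset (Fin k)), ((Ico (0 : ℤ) p).filter (fun x => (p : ℤ) ∣ a i * x + b i)).card ≤ 1 := by
    intro i _
    rw [card_le_one]
    intro x hx y hy
    rw [mem_filter] at hx hy
    refine eq_of_mod hx.1 hy.1 ?_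
    have h3 : (p : ℤ) ∣ a i * (x - y) := by
      have := dvd_sub hx.2 hy.2
      have e : a i * x + b i - (a i * y + b i) = a i * (x - y) := by ring
      rwa [e] at this
    rcases hpp.dvd_or_dvd h3 with h4 | h4
    · exfalso
      obtain ⟨t, ht⟩ := h.2 p hp
      apply ht
      have h5 : (p : ℤ) ∣ b i := by
        have h6 : (p : ℤ) ∣ a i * x := h4.mul_right x
        exact (dvd_add_right h6).1 hx.2
      unfold Fn
      exact (dvd_add (h4.mul_right t) h5).trans (dvd_prod_of_mem (fun i => a i * t + b i) (mem_univ i))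
    · exact h4
  unfold wF
  calc (rtF (Fn a b) p).card ≤ _ := card_le_card h1
    _ ≤ ∑ i ∈ (univ : Finset (Fin k)), ((Ico (0 : ℤ) p).filter (fun x => (p : ℤ) ∣ a i * x + b i)).card :=
        card_biUnion_le
    _ ≤ ∑ i ∈ (univ : Finset (Fin k)), 1 := sum_le_sum h2
    _ = k := by simp

theorem lin_lt {k : ℕ} (a b : Fin k → ℤ) (h : AdmS a b) (p : ℕ) (hp : p.Prime) : wF (Fn a b) p < p := by
  have hp0 : (0 : ℤ) < p := by exact_mod_cast hp.pos
  obtain ⟨t, ht⟩ := h.2 p hp
  have h1 : rtF (Fn a b) p ⊂ Ico (0 : ℤ) p := by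
    refine ⟨filter_subset _ _, fun hsub => ht ?_⟩
    have hmem := hsub (mem_Ico.2 ⟨Int.emod_nonneg t hp0.ne', Int.emod_lt_of_pos t hp0⟩)
    unfold rtF at hmem
    rw [mem_filter] at hmem
    have h2 : (p : ℤ) ∣ t - t % p := Int.dvd_self_sub_emod
    have h3 := h2.trans (Fn_sub a b t (t % p))
    have h4 := dvd_add h3 hmem.2
    have e : Fn a b t - Fn a b (t % p) + Fn a b (t % p) = Fn a b t := by ring
    rwa [e] at h4
  have h2 := card_lt_card h1
  rw [Int.card_Ico, sub_zero, Int.toNat_natCast] at h2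
  exact h2

theorem lin_eq {k : ℕ} (a b : Fin k → ℤ) (h : AdmS a b) (p : ℕ) (hp : p.Prime) (hd : ¬ (p : ℤ) ∣ disc a b) :
    wF (Fn a b) p = k := by
  refine le_antisymm (lin_le a b h p hp) ?_
  have hpp : Prime (p : ℤ) := Nat.prime_iff_prime_int.1 hp
  have hp0 : (0 : ℤ) < p := by exact_mod_cast hp.pos
  have ha : ∀ i, ¬ (p : ℤ) ∣ a i := by
    intro i hi
    apply hd
    unfold disc
    exact Dvd.dvd.mul_right (hi.trans (dvd_prod_of_mem a (mem_univ i))) _
  have hij : ∀ i j, i < j → ¬ (p : ℤ) ∣ a i * b j - a j * b i := by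
    intro i j hlt hh
    apply hd
    unfold disc
    refine Dvd.dvd.mul_left ?_ _
    exact hh.trans (dvd_prod_of_mem (fun q : Fin k × Fin k => a q.1 * b q.2 - a q.2 * b q.1)
      (mem_filter.2 ⟨mem_univ (i, j), hlt⟩))
  have hex : ∀ i, ∃ x ∈ Ico (0 : ℤ) p, (p : ℤ) ∣ a i * x + b i := by
    intro i
    have hc : IsCoprime (a i) (p : ℤ) := ((Prime.coprime_iff_not_dvd hpp).2 (ha i)).symm
    obtain ⟨u, v, huv⟩ := hc
    refine ⟨(-(b i) * u) % p, mem_Ico.2 ⟨Int.emod_nonneg _ hp0.ne', Int.emod_lt_of_pos _ hp0⟩, ?_⟩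
    have h1 : (p : ℤ) ∣ (-(b i) * u) - (-(b i) * u) % p := Int.dvd_self_sub_emod
    have h2 : (p : ℤ) ∣ a i * (-(b i) * u) + b i := by
      have e : a i * (-(b i) * u) + b i = p * (b i * v) := by
        have : b i * (u * a i + v * p) = b i := by rw [huv, mul_one]
        linarith
      rw [e]
      exact Dvd.intro _ rfl
    have h3 := dvd_sub h2 (h1.mul_left (a i))
    have e : a i * (-(b i) * u) + b i - a i * ((-(b i) * u) - (-(b i) * u) % p) =
        a i * ((-(b i) * u) % p) + b i := by ring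
    rwa [e] at h3
  choose x hx1 hx2 using hex
  have hinj : Function.Injective x := by
    have key : ∀ i j, i < j → x i ≠ x j := by
      intro i j hlt he
      apply hij i j hlt
      have h1 := hx2 i
      have h2 := hx2 j
      rw [← he] at h2
      have h3 := dvd_sub (h2.mul_left (a i)) (h1.mul_left (a j))
      have e : a i * (a j * x i + b j) - a j * (a i * x i + b i) = a i * b j - a j * b i := by ring
      rwa [e] at h3
    intro i j he
    by_contra hne
    rcases lt_or_gt_of_ne hne with h | h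
    · exact key i j h he
    · exact key j i h he.symm
  unfold wF
  have h1 : (univ : Finset (Fin k)).card ≤ (rtF (Fn a b) p).card := by
    refine card_le_card_of_injOn x ?_ hinj.injOn
    intro i _
    rw [mem_coe]
    unfold rtF
    rw [mem_filter]
    refine ⟨hx1 i, ?_⟩
    unfold Fn
    exact (hx2 i).trans (dvd_prod_of_mem (fun l => a l * x i + b l) (mem_univ i))
  simpa using h1

/-- the sum over the prime factors of an integer -/
theorem sum_pf : ∃ C : ℝ, 0 ≤ C ∧ ∀ n : ℕ, 1 ≤ n → ∀ z : ℕ, 1 ≤ z → Real.log n ≤ z →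
    ∑ p ∈ n.primeFactors, Real.log p / p ≤ Real.log z + C := by
  obtain ⟨C, hC⟩ := Pool.Agent.Erdos456.Mert.mertens_log
  have hC0 : 0 ≤ C := (abs_nonneg _).trans (hC 1 le_rfl)
  refine ⟨C + 1, by linarith, fun n hn z hz hlog => ?_⟩
  have hz0 : (0 : ℝ) < z := by exact_mod_cast hz
  have h1 := (abs_le.1 (hC z hz)).2
  have h2 : ∑ p ∈ n.primeFactors, Real.log p / p ≤ ∑ p ∈ (Icc 1 z).filter Nat.Prime, Real.log p / p +
      ∑ p ∈ n.primeFactors, Real.log p / z := by
    rw [← sum_filter_add_sum_filter_not n.primeFactors (fun p => p ≤ z) (fun p : ℕ => Real.log p / p)]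
    refine add_le_add ?_ ?_
    · refine sum_le_sum_of_subset_of_nonneg ?_ ?_
      · intro p hp
        rw [mem_filter] at hp ⊢
        have := Nat.prime_of_mem_primeFactors hp.1
        exact ⟨mem_Icc.2 ⟨this.pos, hp.2⟩, this⟩
      · intro p hp _
        rw [mem_filter] at hp
        have h2 : (2 : ℝ) ≤ p := by exact_mod_cast hp.2.two_le
        exact div_nonneg (Real.log_nonneg (by linarith)) (by linarith)
    · calc ∑ p ∈ n.primeFactors.filter (fun p => ¬ p ≤ z), Real.log p / p
          ≤ ∑ p ∈ n.primeFactors.filter (fun p => ¬ p ≤ z), Real.log p / z := by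
            refine sum_le_sum fun p hp => ?_
            rw [mem_filter] at hp
            have h3 := (Nat.prime_of_mem_primeFactors hp.1)
            have h2 : (2 : ℝ) ≤ p := by exact_mod_cast h3.two_le
            have h4 : (z : ℝ) ≤ p := by
              have : z ≤ p := by omega
              exact_mod_cast this
            exact div_le_div_of_nonneg_left (Real.log_nonneg (by linarith)) hz0 h4
        _ ≤ ∑ p ∈ n.primeFactors, Real.log p / z := by
            refine sum_le_sum_of_subset_of_nonneg (filter_subset _ _) ?_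
            intro p hp _
            have h2 : (2 : ℝ) ≤ p := by exact_mod_cast (Nat.prime_of_mem_primeFactors hp).two_le
            exact div_nonneg (Real.log_nonneg (by linarith)) hz0.le
  have h3 : ∑ p ∈ n.primeFactors, Real.log p ≤ Real.log n := by
    have e1 : ∑ p ∈ n.primeFactors, Real.log p = Real.log (∏ p ∈ n.primeFactors, p : ℕ) := by
      rw [Nat.cast_prod, Real.log_prod]
      intro p hp
      exact_mod_cast (Nat.prime_of_mem_primeFactors hp).ne_zero
    rw [e1]
    have h4 : (∏ p ∈ n.primeFactors, p) ≤ n := Nat.le_of_dvd (by omega) (Nat.prod_primeFactors_dvd n)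
    have h5 : 0 < ∏ p ∈ n.primeFactors, p := prod_pos fun p hp => (Nat.prime_of_mem_primeFactors hp).pos
    exact Real.log_le_log (by exact_mod_cast h5) (by exact_mod_cast h4)
  rw [← sum_div] at h2
  have h4 : (∑ p ∈ n.primeFactors, Real.log p) / z ≤ 1 := by
    rw [div_le_one hz0]
    exact h3.trans hlog
  linarith

/-- the sieve problem has dimension `k` -/
theorem lin_dim : ∃ C : ℝ, 0 ≤ C ∧ ∀ (k : ℕ) (a b : Fin k → ℤ), AdmS a b → ∀ z : ℕ, 1 ≤ z →
    Real.log |(disc a b : ℝ)| ≤ z → DimU (wF (Fn a b)) k k (k * (Real.log z + C)) := by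
  obtain ⟨C1, hC10, hC1⟩ := sum_pf
  obtain ⟨C2, hC2⟩ := Pool.Agent.Erdos456.Mert.mertens_log
  have hC20 : 0 ≤ C2 := (abs_nonneg _).trans (hC2 1 le_rfl)
  refine ⟨C1 + C2, by linarith, fun k a b h z hz hlog => ⟨lin_lt a b h, fun p hp => ?_, fun N hN => ?_⟩⟩
  · exact_mod_cast lin_le a b h p hp
  · have hk0 : (0 : ℝ) ≤ k := Nat.cast_nonneg _
    have hn1 : 1 ≤ (disc a b).natAbs := Int.natAbs_pos.2 h.1
    have hlog' : Real.log ((disc a b).natAbs : ℝ) ≤ z := by
      rw [Nat.cast_natAbs, Int.cast_abs]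
      exact hlog
    have h1 := hC1 (disc a b).natAbs hn1 z hz hlog'
    have h2 := hC2 N hN
    have h3 : |∑ p ∈ (Icc 1 N).filter Nat.Prime, ((wF (Fn a b) p : ℝ) - k) * (Real.log p / p)| ≤
        k * (Real.log z + C1) := by
      refine le_trans ?_ (mul_le_mul_of_nonneg_left h1 hk0)
      refine (abs_sum_le_sum_abs _ _).trans ?_
      rw [← sum_filter_add_sum_filter_not ((Icc 1 N).filter Nat.Prime) (fun p => p ∈ (disc a b).natAbs.primeFactors)]
      have h5 : ∑ p ∈ ((Icc 1 N).filter Nat.Prime).filter (fun p => p ∉ (disc a b).natAbs.primeFactors),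
          |((wF (Fn a b) p : ℝ) - k) * (Real.log p / p)| = 0 := by
        refine sum_eq_zero fun p hp => ?_
        rw [mem_filter, mem_filter] at hp
        have hnd : ¬ (p : ℤ) ∣ disc a b := by
          intro hd
          exact hp.2 (Nat.mem_primeFactors.2 ⟨hp.1.2, Int.natCast_dvd.1 hd, by omega⟩)
        rw [lin_eq a b h p hp.1.2 hnd, sub_self, zero_mul, abs_zero]
      rw [h5, add_zero, mul_sum]
      refine le_trans (sum_le_sum fun p hp => ?_) (sum_le_sum_of_subset_of_nonneg
        (f := fun p : ℕ => (k : ℝ) * (Real.log p / p)) ?_ ?_)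
      · rw [mem_filter, mem_filter] at hp
        have h2 : (2 : ℝ) ≤ p := by exact_mod_cast hp.1.2.two_le
        have hl : 0 ≤ Real.log p / p := div_nonneg (Real.log_nonneg (by linarith)) (by linarith)
        rw [abs_mul, abs_of_nonneg hl]
        refine mul_le_mul_of_nonneg_right ?_ hl
        have h6 : (wF (Fn a b) p : ℝ) ≤ k := by exact_mod_cast lin_le a b h p hp.1.2
        have h8 : (0 : ℝ) ≤ wF (Fn a b) p := Nat.cast_nonneg _
        rw [abs_le]
        constructor <;> linarith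
      · intro p hp
        rw [mem_filter] at hp
        exact hp.2
      · intro p hp _
        have h2 : (2 : ℝ) ≤ p := by exact_mod_cast (Nat.prime_of_mem_primeFactors hp).two_le
        have : 0 ≤ Real.log p := Real.log_nonneg (by linarith)
        positivity
    have h4 : ∑ p ∈ (Icc 1 N).filter Nat.Prime, (wF (Fn a b) p : ℝ) * (Real.log p / p) - k * Real.log N =
        k * (∑ p ∈ (Icc 1 N).filter Nat.Prime, Real.log p / p - Real.log N) +
        ∑ p ∈ (Icc 1 N).filter Nat.Prime, ((wF (Fn a b) p : ℝ) - k) * (Real.log p / p) := by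
      have e : ∑ p ∈ (Icc 1 N).filter Nat.Prime, (wF (Fn a b) p : ℝ) * (Real.log p / p) =
          k * ∑ p ∈ (Icc 1 N).filter Nat.Prime, Real.log p / p +
          ∑ p ∈ (Icc 1 N).filter Nat.Prime, ((wF (Fn a b) p : ℝ) - k) * (Real.log p / p) := by
        rw [mul_sum, ← sum_add_distrib]
        refine sum_congr rfl fun p _ => ?_
        ring
      rw [e]
      ring
    rw [h4]
    refine (abs_add_le _ _).trans ?_
    rw [abs_mul, abs_of_nonneg hk0]
    have h5 := mul_le_mul_of_nonneg_left h2 hk0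
    linarith only [h3, h5, (by ring : (k : ℝ) * (Real.log z + (C1 + C2)) = k * (Real.log z + C1) + k * C2)]

end Pool.Agent.H535.AU
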