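import Pool.Agent.H535.AU.Bd
import Pool.Agent.H535.AK.Tot

set_option autoImplicit false

/-!
The size of the sum of the sieve weights, uniformly in the sieve problem.
-/

open Finset

namespace Pool.Agent.H535.AU

open Pool.Agent.H535.AK (g hs PP g_nonneg)

theorem PP_leU (A : ℝ) (hA : 0 ≤ A) : ∃ (Ct : ℝ) (D : ℕ), 1 ≤ Ct ∧ ∀ (w : ℕ → ℕ) (κ : ℕ) (ℓ : ℝ),
    DimU w κ A ℓ → ∀ N : ℕ, 3 ≤ N → PP w N ≤ Ct * Real.log N ^ D := by
  obtain ⟨C, hC⟩ := Pool.Agent.Erdos456.Mert.mertens_inv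
  have hAA : 0 ≤ A * (A + 1) := by positivity
  have hC0 : 0 ≤ C := (abs_nonneg _).trans (hC 3 le_rfl)
  refine ⟨Real.exp (A * (A + 1) * C), ⌈A * (A + 1)⌉₊, Real.one_le_exp (by positivity), fun w κ ℓ h N hN => ?_⟩
  have hN3 : (3 : ℝ) ≤ N := by exact_mod_cast hN
  have hlog : 1 ≤ Real.log N := by
    rw [Real.le_log_iff_exp_le (by linarith)]
    have := Real.exp_one_lt_d9
    linarith
  have hll : 0 ≤ Real.log (Real.log N) := Real.log_nonneg hlog
  have h1 : ∑ p ∈ (Icc 1 N).filter Nat.Prime, (1 : ℝ) / p ≤ Real.log (Real.log N) + C := by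
    have := (abs_le.1 (hC N hN)).2
    linarith
  have h2 : PP w N ≤ Real.exp (∑ p ∈ (Icc 1 N).filter Nat.Prime, g w p) := by
    unfold PP
    rw [Real.exp_sum]
    refine prod_le_prod (fun p hp => ?_) fun p hp => ?_
    · have := g_nonneg h.lt p (mem_filter.1 hp).2
      linarith
    · have := Real.add_one_le_exp (g w p)
      linarith
  have h3 : ∑ p ∈ (Icc 1 N).filter Nat.Prime, g w p ≤ A * (A + 1) * (Real.log (Real.log N) + C) := by
    refine le_trans ?_ (mul_le_mul_of_nonneg_left h1 hAA)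
    rw [mul_sum]
    refine sum_le_sum fun p hp => ?_
    refine (h.g_le p (mem_filter.1 hp).2).trans (le_of_eq ?_)
    ring
  have h4 : A * (A + 1) * (Real.log (Real.log N) + C) ≤
      A * (A + 1) * C + (⌈A * (A + 1)⌉₊ : ℝ) * Real.log (Real.log N) := by
    have := mul_le_mul_of_nonneg_right (Nat.le_ceil (A * (A + 1))) hll
    linarith
  refine h2.trans ((Real.exp_le_exp.2 (h3.trans h4)).trans (le_of_eq ?_))
  rw [Real.exp_add, ← Real.log_pow, Real.exp_log (pow_pos (by linarith) _)]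

end Pool.Agent.H535.AU
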