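import Pool.Agent.H535.AU.Gen2
import Pool.Agent.H535.AK.Poly

set_option autoImplicit false

/-!
The general theorem for the values of a polynomial function, uniformly in the polynomial.
-/

open Finset

namespace Pool.Agent.H535.AU

open Pool.Agent.H535.AW (large2)
open Pool.Agent.H535.AK (IC CoC rtF wF rtF_inj not_root_iff Alw_eq bad_count)

/-- **The values of a polynomial function without small prime factors.** -/
theorem poly_varU (m : ℕ) (A : ℝ) (hA : 0 ≤ A) (b : ℝ) (hb : 0 ≤ b) (J : ℕ) (ε : ℝ) (hε : 0 < ε)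
    (hε1 : ε ≤ 1) :
    ∃ C : ℝ, ∃ X0 : ℕ, ∀ (F : ℤ → ℤ), (∀ x y : ℤ, x - y ∣ F x - F y) → ∀ ℓ : ℝ, DimU (wF F) (m + 1) A ℓ →
    ∀ X : ℕ, X0 ≤ X → ℓ ≤ b * Real.log (Real.log X) → ∀ K : ℕ, Real.sqrt X * Real.log X ^ C ≤ K → K ≤ X → ∀ (Y : ℤ) (u : ℤ → ℂ),
    (∀ t ∈ Ioc Y (Y + X), u t ≠ 0 → F t ≠ 0 ∧ (F t).natAbs.primeFactors.card ≤ J ∧
      ∀ p : ℕ, p.Prime → (p : ℤ) ∣ F t → X < p ^ 2) → ∀ c : ℕ → ℂ,
    (1 - ε) * (1 - (1 - Real.log ((K : ℝ) ^ 2 / X) / Real.log X) ^ (m + 1)) * K *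
        ∑ t ∈ Ioc Y (Y + X), ‖u t‖ ^ 2 ≤
      ∑ k ∈ Ioc K (2 * K), ∑ a ∈ CoC F k, ‖IC u Y X k a - c k‖ ^ 2 := by
  obtain ⟨C, hC, X0, hU⟩ := gen_varU m A hA b hb (2 * J) (by positivity) ε hε hε1
  obtain ⟨X2, hX2⟩ := large2 1
  refine ⟨C, max X0 (max X2 1), fun F hF ℓ hD X hX hℓ K hK hKX Y u hu c => ?_⟩
  have h := hU (wF F) ℓ hD
  have hXX0 : X0 ≤ X := (le_max_left _ _).trans hX
  have hXX2 : X2 ≤ X := (le_max_left _ _).trans ((le_max_right _ _).trans hX)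
  have hX1 : 1 ≤ X := (le_max_right _ _).trans ((le_max_right _ _).trans hX)
  obtain ⟨hL, _⟩ := hX2 X hXX2
  have hsK : Real.sqrt X ≤ K := by
    refine le_trans ?_ hK
    exact le_mul_of_one_le_right (Real.sqrt_nonneg _) (Real.one_le_rpow hL (by linarith))
  have h1 := h X hXX0 hℓ K hK hKX Y (rtF F) u ⟨fun p _ _ => rfl, fun p _ _ => rtF_inj F p⟩ (fun p _ => le_rfl)
    (fun t ht hne p hp hpX b hb hd => by
      obtain ⟨_, _, hbig⟩ := hu t ht hne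
      have hpF : (p : ℤ) ∣ F t := by
        by_contra hcon
        exact (not_root_iff F hF p hp t).2 hcon b hb hd
      have := hbig p hp hpF
      omega)
    (fun t ht hne => by
      obtain ⟨h0, hJ, hbig⟩ := hu t ht hne
      exact bad_count F hF X K J hX1 hsK t h0 hJ hbig) c
  refine h1.trans (le_of_eq ?_)
  refine sum_congr rfl fun k hk => ?_
  rw [mem_Ioc] at hk
  rw [Alw_eq F hF k (by omega)]

end Pool.Agent.H535.AU
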