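import Pool.Agent.H535.AU.Lin

set_option autoImplicit false

/-!
The theorem for systems of linear forms, uniformly in the system.
-/

open Finset

namespace Pool.Agent.H535.AU

open Pool.Agent.H535.AW (large2)
open Pool.Agent.H535.AK (IC CoC rtF wF)

theorem sys_var (k : ℕ) (hk : 1 ≤ k) (B : ℝ) (hB : 0 ≤ B) (J : ℕ) (ε : ℝ) (hε : 0 < ε) (hε1 : ε ≤ 1) :
    ∃ C : ℝ, ∃ X0 : ℕ, ∀ X : ℕ, X0 ≤ X → ∀ K : ℕ, Real.sqrt X * Real.log X ^ C ≤ K → K ≤ X →
    ∀ (a b : Fin k → ℤ), AdmS a b → |(disc a b : ℝ)| ≤ Real.exp (Real.log X ^ B) → ∀ (Y : ℤ) (u : ℤ → ℂ),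
    (∀ t ∈ Ioc Y (Y + X), u t ≠ 0 → Fn a b t ≠ 0 ∧ (Fn a b t).natAbs.primeFactors.card ≤ J ∧
      ∀ p : ℕ, p.Prime → (p : ℤ) ∣ Fn a b t → X < p ^ 2) → ∀ c : ℕ → ℂ,
    (1 - ε) * (1 - (1 - Real.log ((K : ℝ) ^ 2 / X) / Real.log X) ^ k) * K *
        ∑ t ∈ Ioc Y (Y + X), ‖u t‖ ^ 2 ≤
      ∑ q ∈ Ioc K (2 * K), ∑ r ∈ CoC (Fn a b) q, ‖IC u Y X q r - c q‖ ^ 2 := by
  obtain ⟨m, rfl⟩ : ∃ m, k = m + 1 := ⟨k - 1, by omega⟩
  obtain ⟨C', hC', hlin⟩ := lin_dim
  have hk0 : (0 : ℝ) ≤ ((m + 1 : ℕ) : ℝ) := Nat.cast_nonneg _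
  obtain ⟨C, X0, hmain⟩ := poly_varU m ((m + 1 : ℕ) : ℝ) hk0 (((m + 1 : ℕ) : ℝ) * (1 + B + C')) (by positivity)
    J ε hε hε1
  obtain ⟨X2, hX2⟩ := large2 (Real.exp 1)
  refine ⟨C, max X0 X2, fun X hX K hK hKX a b hadm hdisc Y u hu c => ?_⟩
  have hXX0 : X0 ≤ X := (le_max_left _ _).trans hX
  obtain ⟨hL, _⟩ := hX2 X ((le_max_right _ _).trans hX)
  have he1 : (1 : ℝ) ≤ Real.exp 1 := Real.one_le_exp (by norm_num)
  have hL1 : 1 ≤ Real.log X := he1.trans hL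
  have hLL : 1 ≤ Real.log (Real.log X) := by
    rw [Real.le_log_iff_exp_le (by linarith)]
    exact hL
  have hLB : 1 ≤ Real.log X ^ B := Real.one_le_rpow hL1 hB
  obtain ⟨z, hz⟩ : ∃ z : ℕ, z = ⌈Real.log X ^ B⌉₊ := ⟨_, rfl⟩
  have hz1 : Real.log X ^ B ≤ z := by
    rw [hz]
    exact Nat.le_ceil _
  have hz1' : (1 : ℝ) ≤ z := hLB.trans hz1
  have hz2 : (z : ℝ) ≤ 2 * Real.log X ^ B := by
    rw [hz]
    have := Nat.ceil_lt_add_one (by linarith : 0 ≤ Real.log X ^ B)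
    linarith
  have hz3 : 1 ≤ z := by exact_mod_cast hz1'
  have hlogd : Real.log |(disc a b : ℝ)| ≤ z := by
    refine le_trans ?_ hz1
    have hpos : 0 < |(disc a b : ℝ)| := abs_pos.2 (by exact_mod_cast hadm.1)
    rw [Real.log_le_iff_le_exp hpos]
    exact hdisc
  have hdim := hlin (m + 1) a b hadm z hz3 hlogd
  have hℓ : ((m + 1 : ℕ) : ℝ) * (Real.log z + C') ≤ ((m + 1 : ℕ) : ℝ) * (1 + B + C') * Real.log (Real.log X) := by
    rw [mul_assoc]
    refine mul_le_mul_of_nonneg_left ?_ hk0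
    have h1 : Real.log z ≤ Real.log 2 + B * Real.log (Real.log X) := by
      refine (Real.log_le_log (by linarith) hz2).trans ?_
      rw [Real.log_mul (by norm_num) (by positivity), Real.log_rpow (by linarith)]
    have h2 : Real.log 2 ≤ 1 := by
      have := Real.log_two_lt_d9
      linarith
    have h3 : C' ≤ C' * Real.log (Real.log X) := le_mul_of_one_le_right hC' hLL
    have h4 : (1 + B + C') * Real.log (Real.log X) = Real.log (Real.log X) + B * Real.log (Real.log X) +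
      C' * Real.log (Real.log X) := by ring
    rw [h4]
    linarith
  have hcast : ((m + 1 : ℕ) : ℝ) = (m : ℝ) + 1 := by push_cast; ring
  have hdim' : DimU (wF (Fn a b)) (m + 1) ((m + 1 : ℕ) : ℝ) (((m + 1 : ℕ) : ℝ) * (Real.log z + C')) := by
    have := hdim
    simpa using this
  exact hmain (Fn a b) (Fn_sub a b) _ hdim' X hXX0 hℓ K hK hKX Y u hu c

/-- the forms `t` and `s t + d`, `s = ± 1` -/
theorem pair_adm (s : ℤ) (hs : s = 1 ∨ s = -1) (d : ℤ) (hd : d ≠ 0) (h2 : Even d) :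
    AdmS ![1, s] ![0, d] ∧ |(disc ![1, s] ![0, d] : ℝ)| = |(d : ℝ)| ∧
      ∀ t, Fn ![1, s] ![0, d] t = t * (s * t + d) := by
  have hFn : ∀ t, Fn ![1, s] ![0, d] t = t * (s * t + d) := by
    intro t
    unfold Fn
    rw [Fin.prod_univ_two]
    simp
  have hfil : (univ : Finset (Fin 2 × Fin 2)).filter (fun q => q.1 < q.2) = {(0, 1)} := by decide
  have hdisc : disc ![1, s] ![0, d] = s * d := by
    unfold disc
    rw [Fin.prod_univ_two, hfil, prod_singleton]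
    simp
  refine ⟨⟨?_, ?_⟩, ?_, hFn⟩
  · rw [hdisc]
    rcases hs with rfl | rfl <;> simpa using hd
  · intro p hp
    have hpp : Prime (p : ℤ) := Nat.prime_iff_prime_int.1 hp
    have hs' : ¬ (p : ℤ) ∣ s := by
      intro h
      rcases hs with rfl | rfl
      · exact hpp.not_unit (isUnit_of_dvd_one h)
      · exact hpp.not_unit (isUnit_of_dvd_one ((dvd_neg).1 h))
    by_cases h1 : (p : ℤ) ∣ s + d
    · refine ⟨2, ?_⟩
      rw [hFn]
      have hp2 : p ≠ 2 := by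
        rintro rfl
        have : (2 : ℤ) ∣ d := h2.two_dvd
        exact hs' ((dvd_add_left this).1 h1)
      have hp2' : ¬ (p : ℤ) ∣ 2 := by
        intro h
        have h3 : p ∣ 2 := by exact_mod_cast h
        exact hp2 ((Nat.prime_dvd_prime_iff_eq hp Nat.prime_two).1 h3)
      intro h
      rcases hpp.dvd_or_dvd h with h3 | h3
      · exact hp2' h3
      · have e : s * 2 + d = s + (s + d) := by ring
        rw [e] at h3
        exact hs' ((dvd_add_left h1).1 h3)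
    · refine ⟨1, ?_⟩
      rw [hFn, one_mul, mul_one]
      exact h1
  · rw [hdisc]
    rcases hs with rfl | rfl <;> simp

end Pool.Agent.H535.AU
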